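import Pool.Agent.W558.WA.Stms
import Pool.Agent.W150.WD.F2

set_option autoImplicit false
set_option linter.unusedVariables false
set_option linter.unusedSectionVars false

universe u

open Pool.Agent.W558 Pool.Agent.W150.WD

namespace Pool.Agent.W368.WA

section

variable {k E : Type u} [Field k] [Field E] [Algebra k E] {O : Subalgebra k E}

lemma ox_zero {u v z : E} (hz : z ∈ O) : Ox O u v 0 z :=
  ⟨0, O.zero_mem, z, hz, by rw [pow_zero, mul_one, zero_mul, zero_add]⟩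

lemma rs_exists {b : Set E} {u v X f : E} {J : ℕ} (hmem : ∀ θ ∈ Th O b, θ f * X ∈ O)
    (hne : ∃ θ ∈ Th O b, ¬ Ox O u v J (θ f * X)) : ∃ c, Rs O b u v X f c := by
  classical
  have hex : ∃ n, ∃ θ ∈ Th O b, ¬ Ox O u v n (θ f * X) := ⟨J, hne⟩
  have h1 := Nat.find_spec hex
  have h0 : Nat.find hex ≠ 0 := by
    intro h
    rw [h] at h1
    obtain ⟨θ, hθ, h2⟩ := h1
    exact h2 (ox_zero (hmem θ hθ))
  obtain ⟨c, hc⟩ : ∃ c, Nat.find hex = c + 1 := ⟨Nat.find hex - 1, by omega⟩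
  refine ⟨c, ?_, ?_⟩
  · intro θ hθ
    by_contra h2
    exact Nat.find_min hex (m := c) (by omega) ⟨θ, hθ, h2⟩
  · rw [← hc]
    exact h1

lemma unit_int {p : ℕ} [CharP k p] {m : ℤ} (hm : ¬ (p : ℤ) ∣ m) : ¬ NU O ((m : ℤ) : E) := by
  have h1 : ((m : ℤ) : k) ≠ 0 := by
    intro h
    exact hm ((CharP.intCast_eq_zero_iff k p m).1 h)
  have h2 : ((m : ℤ) : E) = algebraMap k E (m : k) := by simp
  have h3 : algebraMap k E (m : k) ≠ 0 := by
    intro h
    exact h1 ((map_eq_zero _).1 h)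
  refine not_NU_of_inv (by rw [h2]; exact h3) ?_
  rw [h2, ← map_inv₀]
  exact O.algebraMap_mem _

lemma int_mem (m : ℤ) : ((m : ℤ) : E) ∈ O := by
  have h2 : ((m : ℤ) : E) = algebraMap k E (m : k) := by simp
  rw [h2]
  exact O.algebraMap_mem _

lemma eig {Δ : Derivation k E E} {s e : E} (h : Δ s = e * s) (i : ℕ) :
    Δ (s ^ i) = i * e * s ^ i := by
  induction i with
  | zero => simp
  | succ i ih =>
    rw [pow_succ, Derivation.leibniz, ih, h, smul_eq_mul, smul_eq_mul]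
    push_cast
    ring

lemma eig_sum {Δ : Derivation k E E} {s e : E} (h : Δ s = e * s) (g : ℕ → E) (n : ℕ) :
    Δ (∑ i ∈ Finset.range n, g i * s ^ i) =
      ∑ i ∈ Finset.range n, (i * e * g i) * s ^ i + ∑ i ∈ Finset.range n, Δ (g i) * s ^ i := by
  rw [map_sum, ← Finset.sum_add_distrib]
  refine Finset.sum_congr rfl fun i _ => ?_
  rw [Derivation.leibniz, eig h, smul_eq_mul, smul_eq_mul]
  ring

end

theorem main (hder : WD_der.{u}) (hthb : WD_thb.{u}) (hod : WD_od.{u}) (hqp : WD_qp.{u})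
    (hqs : WD_qs.{u}) (ht : WA_t.{u}) (hri : WA_ri.{u}) (hu : WA_u.{u}) : WA_a2.{u} := by
  intro p _ k E _ _ _ _ _ htr O O' x y f N c N' M' c' d' hO hO' hpar hquad hpar' hdn hN hc hdc
  have hE : CharP E p := charP_of_injective_algebraMap (algebraMap k E).injective p
  obtain ⟨D1, D2, hD1, hD2, h1x, h1y, h2x, h2y, hD⟩ := hder k E htr O x y hO hpar
  obtain ⟨ht1, -, htb⟩ := hthb k E htr O x y D1 D2 hO hpar hD1 hD2 h1x h1y h2x h2y hD
  have ht2 := (htb O' hO').2.1 hquad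
  have hloc : ∀ a b, NU O a → NU O b → NU O (a + b) := by
    obtain ⟨A, -, hA⟩ := hO
    exact hA.loc
  have hloc' : ∀ a b, NU O' a → NU O' b → NU O' (a + b) := by
    obtain ⟨A, -, hA⟩ := hO'
    exact hA.loc
  have hx0 := hpar.u0
  have hy0 := hpar.v0
  obtain ⟨s, hs⟩ : ∃ s : E, s = x / y := ⟨_, rfl⟩
  rw [← hs] at hpar' hdc ht2 ⊢
  have hs0 : s ≠ 0 := hpar'.v0
  have hxO := hpar.pu.1
  have hyO := hpar.pv.1
  have hyO' := hpar'.pu.1
  have hsO' := hpar'.pv.1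
  have hxs : x = y * s := by rw [hs, mul_div_cancel₀ _ hy0]
  -- reduction
  obtain ⟨a, ha1, ha2⟩ := hdn
  obtain ⟨ρ, g, a2, hρN, hg, ha3, hq, hcase⟩ := ht p k E htr O x y hO hpar
    (f - (a ^ p - a)) N 0 (by rw [pow_zero, mul_one]; exact ha1)
  simp only [pow_zero, mul_one, add_zero] at hq hρN hcase
  obtain ⟨a', ha'⟩ : ∃ a' : E, a' = a + a2 := ⟨_, rfl⟩
  obtain ⟨F, hF⟩ : ∃ F : E, F = f - (a' ^ p - a') := ⟨_, rfl⟩
  have hFe : f - (a ^ p - a) - (a2 ^ p - a2) = F := by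
    rw [hF, ha', add_pow_char]
    ring
  rw [hFe] at hq
  obtain ⟨q, hqe⟩ : ∃ q : E, q = F * x ^ N := ⟨_, rfl⟩
  rw [← hqe] at hq
  have hqO : q ∈ O := by
    rw [hq]
    exact O.sum_mem fun j _ => O.mul_mem (O.mul_mem (hg j) (O.pow_mem hxO _)) (O.pow_mem hyO _)
  have hdn' : DN p O x y f N c := ⟨a, ha1, ha2⟩
  have hrs : Rs O (uo O x) x y (x ^ N) F c := by
    have := (hri p k E htr O x y f hO hpar).1 N c hdn' a' (by rw [← hF, ← hqe]; exact hqO) hN
    rwa [← hF] at this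
  -- the residuals
  obtain ⟨R, hR⟩ : ∃ R : E, R = ∑ i ∈ Finset.range (ρ + 1), g (ρ - i) * s ^ i := ⟨_, rfl⟩
  have hRq : q * (y ^ ρ)⁻¹ = R := by
    rw [hR, hs]
    exact md_div hy0 hq
  have hyρ : ∀ n : ℕ, y ^ n ≠ 0 := fun n => pow_ne_zero n hy0
  have hRO : R ∈ O' := by
    rw [hR]
    exact poly_mem (fun j => hquad.le (hg j)) hsO'
  obtain ⟨X, hX⟩ : ∃ X : E, X = y ^ (N - ρ) * s ^ N := ⟨_, rfl⟩
  have hXy : X * y ^ ρ = x ^ N := by
    rw [hX, hxs, mul_pow]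
    have : y ^ N = y ^ (N - ρ) * y ^ ρ := by rw [← pow_add]; congr 1; omega
    rw [this]
    ring
  have hFX : F * X = R := by
    rw [← hRq, hqe, ← hXy]
    have := hyρ ρ
    field_simp
  have hΔ1s : (x • D1) s = 1 * s := by
    rw [Derivation.smul_apply, smul_eq_mul]
    have h1 : D1 x = D1 (y * s) := by rw [← hxs]
    rw [h1x, Derivation.leibniz, h1y, smul_zero, add_zero, smul_eq_mul] at h1
    have h2 : x * D1 s = s * (y * D1 s) := by rw [hxs]; ring
    rw [h2, ← h1]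
    ring
  have hΔ2s : (y • D2) s = (-1) * s := by
    rw [Derivation.smul_apply, smul_eq_mul]
    have h1 : D2 x = D2 (y * s) := by rw [← hxs]
    rw [h2x, Derivation.leibniz, h2y, smul_eq_mul, smul_eq_mul, mul_one] at h1
    linear_combination -h1
  have hΔ1y : (x • D1) y = 0 * y := by
    rw [Derivation.smul_apply, h1y]; simp
  have hΔ2y : (y • D2) y = 1 * y := by
    rw [Derivation.smul_apply, h2y]; simp
  obtain ⟨r1, hr1⟩ : ∃ r1 : E, r1 = (x • D1) F * X := ⟨_, rfl⟩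
  obtain ⟨r2, hr2⟩ : ∃ r2 : E, r2 = (y • D2) F * X := ⟨_, rfl⟩
  have hr1R : r1 = (x • D1) R - N * R := by
    have h1 : (x • D1) X = N * X := by
      rw [hX, Derivation.leibniz, eig hΔ1s, eig hΔ1y, smul_eq_mul, smul_eq_mul]
      ring
    have h2 : (x • D1) R = F * (N * X) + X * (x • D1) F := by
      rw [← hFX, Derivation.leibniz, h1, smul_eq_mul, smul_eq_mul]
    rw [hr1, h2, ← hFX]
    ring
  have hr2R : r2 = (y • D2) R + ρ * R := by
    have h1 : (y • D2) X = -(ρ * X) := by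
      rw [hX, Derivation.leibniz, eig hΔ2s, eig hΔ2y, smul_eq_mul, smul_eq_mul]
      have h3 : ((N - ρ : ℕ) : E) = N - ρ := by rw [Nat.cast_sub hρN]
      rw [h3]
      ring
    have h2 : (y • D2) R = F * (-(ρ * X)) + X * (y • D2) F := by
      rw [← hFX, Derivation.leibniz, h1, smul_eq_mul, smul_eq_mul]
    rw [hr2, h2, ← hFX]
    ring
  obtain ⟨w1, hw1⟩ : ∃ w1 : E, w1 = ∑ i ∈ Finset.range (ρ + 1), (s * D1 (g (ρ - i))) * s ^ i :=
    ⟨_, rfl⟩
  obtain ⟨w2, hw2⟩ : ∃ w2 : E, w2 = ∑ i ∈ Finset.range (ρ + 1), D2 (g (ρ - i)) * s ^ i :=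
    ⟨_, rfl⟩
  have hw1O : w1 ∈ O' := by
    rw [hw1]
    exact O'.sum_mem fun i _ => O'.mul_mem (O'.mul_mem hsO' (hquad.le (hD1 _ (hg _))))
      (O'.pow_mem hsO' _)
  have hw2O : w2 ∈ O' := by
    rw [hw2]
    exact O'.sum_mem fun i _ => O'.mul_mem (hquad.le (hD2 _ (hg _))) (O'.pow_mem hsO' _)
  have hr1e : r1 = ∑ i ∈ Finset.range (ρ + 1), (((i : ℤ) - N : ℤ) * g (ρ - i)) * s ^ i +
      y * w1 := by
    rw [hr1R, hR, eig_sum hΔ1s, hw1, Finset.mul_sum, Finset.mul_sum, add_sub_right_comm,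
      ← Finset.sum_sub_distrib]
    congr 1
    · refine Finset.sum_congr rfl fun i _ => ?_
      push_cast
      ring
    · refine Finset.sum_congr rfl fun i _ => ?_
      rw [Derivation.smul_apply, smul_eq_mul, hxs]
      ring
  have hr2e : r2 = ∑ i ∈ Finset.range (ρ + 1), (((ρ : ℤ) - i : ℤ) * g (ρ - i)) * s ^ i +
      y * w2 := by
    rw [hr2R, hR, eig_sum hΔ2s, hw2, Finset.mul_sum, Finset.mul_sum, add_right_comm,
      ← Finset.sum_add_distrib]
    congr 1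
    · refine Finset.sum_congr rfl fun i _ => ?_
      push_cast
      ring
    · refine Finset.sum_congr rfl fun i _ => ?_
      rw [Derivation.smul_apply, smul_eq_mul]
      ring
  have hr1O : r1 ∈ O' := by
    rw [hr1e]
    exact O'.add_mem (O'.sum_mem fun i _ => O'.mul_mem (O'.mul_mem (int_mem _)
      (hquad.le (hg _))) (O'.pow_mem hsO' _)) (O'.mul_mem hyO' hw1O)
  have hr2O : r2 ∈ O' := by
    rw [hr2e]
    exact O'.add_mem (O'.sum_mem fun i _ => O'.mul_mem (O'.mul_mem (int_mem _)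
      (hquad.le (hg _))) (O'.pow_mem hsO' _)) (O'.mul_mem hyO' hw2O)
  have evl : ∀ (a b : E) (Δ1 Δ2 : Derivation k E E), (a • Δ1 + b • Δ2) F =
      a * Δ1 F + b * Δ2 F :=
    fun a b Δ1 Δ2 => by
      rw [Derivation.add_apply, Derivation.smul_apply, Derivation.smul_apply, smul_eq_mul,
        smul_eq_mul]
  have ev : ∀ α β : E, (α • (x • D1) + β • (y • D2)) F * X = α * r1 + β * r2 := by
    intro α β
    rw [evl, hr1, hr2]
    ring
  have hresO : ∀ θ ∈ Th O' (uo O' y ∪ uo O' s), θ F * X ∈ O' := by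
    intro θ hθ
    obtain ⟨α, hα, β, hβ, rfl⟩ := (ht2 θ).1 hθ
    rw [ev]
    exact O'.add_mem (O'.mul_mem hα hr1O) (O'.mul_mem hβ hr2O)
  have hth1 : x • D1 ∈ Th O' (uo O' y ∪ uo O' s) :=
    (ht2 _).2 ⟨1, O'.one_mem, 0, O'.zero_mem, by simp⟩
  have hth2 : y • D2 ∈ Th O' (uo O' y ∪ uo O' s) :=
    (ht2 _).2 ⟨0, O'.zero_mem, 1, O'.one_mem, by simp⟩
  -- comparison with the residuals at `O`
  obtain ⟨P, hP⟩ : ∃ P : E, P = (x • D1) F * x ^ N := ⟨_, rfl⟩
  obtain ⟨Q, hQ⟩ : ∃ Q : E, Q = D2 F * x ^ N := ⟨_, rfl⟩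
  have hPr : P = r1 * y ^ ρ := by rw [hP, hr1, ← hXy]; ring
  have hQr : y * Q = r2 * y ^ ρ := by
    rw [hQ, hr2, ← hXy, Derivation.smul_apply, smul_eq_mul]; ring
  have oxP : Ox O x y c P := by
    have := hrs.1 (x • D1) ((ht1 _).2 ⟨1, O.one_mem, 0, O.zero_mem, by simp⟩)
    rwa [← hP] at this
  have oxQ : Ox O x y c Q := by
    have := hrs.1 D2 ((ht1 _).2 ⟨0, O.zero_mem, 1, O.one_mem, by simp⟩)
    rwa [← hQ] at this
  have hPO := ox_mem hxO hyO oxP
  have hQO := ox_mem hxO hyO oxQ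
  have hPQ : ¬ (Ox O x y (c + 1) P ∧ Ox O x y (c + 1) Q) := by
    rintro ⟨h1, h2⟩
    obtain ⟨θ, hθ, h3⟩ := hrs.2
    obtain ⟨α, hα, β, hβ, rfl⟩ := (ht1 _).1 hθ
    apply h3
    have := ox_lin h1 h2 hα hβ
    convert this using 1
    rw [evl, hP, hQ]
    ring
  have nu_of : ∀ z, Ox O x y c z → NU O z := by
    rintro z ⟨α, hα, β, hβ, rfl⟩
    refine hloc _ _ (hpar.pu.mul_left hα) (NU.mul_left ?_ hβ)
    obtain ⟨c0, rfl⟩ : ∃ c0, c = c0 + 1 := ⟨c - 1, by omega⟩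
    rw [pow_succ]
    exact hpar.pv.mul_left (O.pow_mem hyO c0)
  have hlift : ∀ {r : E} {j : ℕ}, Ox O' s y j r → Ox O' (x / y) y (j + ρ) (r * y ^ ρ) := by
    rintro r j ⟨α, hα, β, hβ, rfl⟩
    refine ⟨α * y ^ ρ, O'.mul_mem hα (O'.pow_mem hyO' _), β, hβ, ?_⟩
    rw [← hs, pow_add]
    ring
  have hpar'' : Par O' y (x / y) := by rw [← hs]; exact hpar'
  have key : ∀ j, Ox O' s y j r1 → Ox O' s y j r2 → j + ρ ≤ c + 1 := by
    intro j h1 h2
    by_contra h3
    apply hPQ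
    constructor
    · have h4 := hlift h1
      rw [← hPr] at h4
      exact ox_mono hyO (by omega) (hqs k E htr O O' x y hO hO' hpar hquad hpar'' P hPO _ h4)
    · have h4 := hlift h2
      rw [← hQr] at h4
      obtain ⟨α, hα, β, hβ, h5⟩ := hqs k E htr O O' x y hO hO' hpar hquad hpar'' (y * Q)
        (O.mul_mem hyO hQO) _ h4
      obtain ⟨n, hn⟩ : ∃ n, j + ρ = n + 1 := ⟨j + ρ - 1, by omega⟩
      rw [hn] at h5
      obtain ⟨d, hd, h6⟩ := hpar.reg α hα (Q - β * y ^ n)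
        (O.sub_mem hQO (O.mul_mem hβ (O.pow_mem hyO _))) (by
          rw [pow_succ] at h5
          linear_combination -h5)
      refine ox_mono (j := n) hyO (by omega) ⟨d, hd, β, hβ, ?_⟩
      linear_combination h6
  -- `1 ≤ ρ`
  have hρ1 : 1 ≤ ρ := by
    by_contra h0
    have h0 : ρ = 0 := by omega
    subst h0
    rcases hcase with h | ⟨j, hj, hju, hjp⟩
    · omega
    · have hj0 : j = 0 := by omega
      subst hj0
      have hNp : ¬ (p : ℤ) ∣ (((0 : ℕ) : ℤ) - N) := by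
        intro h
        apply hjp
        refine ⟨by simpa using h, by simp⟩
      have h1 : NU O' r1 := by
        have := hquad.nu _ (nu_of P oxP)
        rwa [hPr, pow_zero, mul_one] at this
      rw [hr1e, Finset.sum_range_one, pow_zero, mul_one] at h1
      have h2 : NU O' ((((0 : ℕ) : ℤ) - N : ℤ) * g (0 - 0)) := by
        have h3 := hloc' _ _ h1 (hpar'.pu.mul_right hw1O).neg
        rwa [add_neg_cancel_right] at h3
      have h3 : ¬ NU O' ((((0 : ℕ) : ℤ) - N : ℤ) * g (0 - 0)) := by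
        refine not_NU_mul (int_mem _) (hquad.le (hg _)) (unit_int hNp) ?_
        obtain ⟨h4, h5⟩ := (not_NU_iff (hg _)).1 hju
        exact not_NU_of_inv h4 (hquad.le h5)
      exact h3 h2
  -- the restriction to `y = 0`
  have hres1 : 1 ≤ N - ρ → ¬ (Ox O' y s (ρ + 1) r1 ∧ Ox O' y s (ρ + 1) r2) := by
    intro h0
    rintro ⟨h1, h2⟩
    rcases hcase with h | ⟨j, hj, hju, hjp⟩
    · omega
    have hgen : ∀ (m : ℕ → ℤ) (w : E), w ∈ O' → ¬ (p : ℤ) ∣ m (ρ - j) →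
        ¬ Ox O' y s (ρ + 1) (∑ i ∈ Finset.range (ρ + 1), ((m i : ℤ) * g (ρ - i)) * s ^ i +
          y * w) := by
      rintro m w hw hm ⟨α, hα, β, hβ, h3⟩
      rw [hs] at h3
      refine hqp k E htr O O' y x (x / y) hO hO' (par_symm hpar) hquad hpar'' ρ
        (fun i => (m i : ℤ) * g (ρ - i)) (fun i => O.mul_mem (int_mem _) (hg _))
        ⟨ρ - j, by omega, ?_⟩ ⟨α - w, O'.sub_mem hα hw, β, hβ, ?_⟩
      · have h4 : ρ - (ρ - j) = j := by omega
        refine not_NU_mul (int_mem _) (hg _) (unit_int hm) ?_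
        rw [h4]
        exact hju
      · linear_combination h3
    have hj2 : ((ρ - j : ℕ) : ℤ) = ρ - j := by push_cast [Nat.cast_sub hj]; ring
    by_cases h3 : (p : ℤ) ∣ (ρ : ℤ) - j - N
    · have h4 : ¬ (p : ℤ) ∣ (j : ℤ) := by
        intro h5
        exact hjp ⟨h3, by simpa using h5⟩
      rw [hr2e] at h2
      refine hgen (fun i => (ρ : ℤ) - i) w2 hw2O ?_ h2
      show ¬ (p : ℤ) ∣ (ρ : ℤ) - ((ρ - j : ℕ) : ℤ)
      rw [hj2]
      convert h4 using 2
      ring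
    · rw [hr1e] at h1
      refine hgen (fun i => (i : ℤ) - N) w1 hw1O ?_ h1
      show ¬ (p : ℤ) ∣ ((ρ - j : ℕ) : ℤ) - N
      rw [hj2]
      exact h3
  -- existence of the invariants
  obtain ⟨d'', hd''⟩ : ∃ d, Rs O' (uo O' y ∪ uo O' s) s y X F d := by
    refine rs_exists (J := c + 2) hresO ?_
    by_contra h
    push Not at h
    have h1 := h _ hth1
    have h2 := h _ hth2
    rw [← hr1] at h1
    rw [← hr2] at h2
    have := key _ h1 h2
    omega
  obtain ⟨c'', hc''⟩ : ∃ c'', 1 ≤ N - ρ → Rs O' (uo O' y ∪ uo O' s) y s X F c'' := by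
    by_cases h0 : 1 ≤ N - ρ
    · obtain ⟨c'', h1⟩ : ∃ d, Rs O' (uo O' y ∪ uo O' s) y s X F d := by
        refine rs_exists (J := ρ + 1) hresO ?_
        by_contra h
        push Not at h
        have h1 := h _ hth1
        have h2 := h _ hth2
        rw [← hr1] at h1
        rw [← hr2] at h2
        exact hres1 h0 ⟨h1, h2⟩
      exact ⟨c'', fun _ => h1⟩
    · exact ⟨0, fun h => absurd h h0⟩
  have hdc' : DC p O' y s f (N - ρ) N c'' d'' := by
    refine ⟨a', ?_, ?_, ?_⟩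
    · rw [← hF, ← hX, hFX]
      exact hRO
    · rw [← hF, ← hX]
      exact hc''
    · rw [← hF, ← hX]
      exact fun _ => hd''
  obtain ⟨e1, e2, e3, e4⟩ := (hu p k E htr O' y s f hO' hpar').2.1 _ _ _ _ _ _ _ _ hdc hdc'
  subst e1
  subst e2
  have e5 := e4 hN
  subst e5
  have hr1d : Ox O' s y d' r1 := by
    have := hd''.1 _ hth1
    rwa [← hr1] at this
  have hr2d : Ox O' s y d' r2 := by
    have := hd''.1 _ hth2
    rwa [← hr2] at this
  have hdb := key _ hr1d hr2d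
  have hcb : 1 ≤ M' - ρ → c' ≤ ρ := by
    intro h0
    have e6 := e3 h0
    subst e6
    by_contra h1
    apply hres1 h0
    have h2 := (hc'' h0).1 _ hth1
    have h3 := (hc'' h0).1 _ hth2
    rw [← hr1] at h2
    rw [← hr2] at h3
    exact ⟨ox_mono hsO' (by omega) h2, ox_mono hsO' (by omega) h3⟩
  refine ⟨rfl, by omega, by omega, fun h0 => ?_, ?_⟩
  · have := hcb h0
    omega
  -- the last claim
  intro hc1 hN1 hc1' hd1'
  have e6 := e3 hN1
  subst e6
  have hρe : ρ = 1 := by omega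
  subst hρe
  subst hc1
  have hd1 : d' = 1 := by omega
  subst hd1
  have hrs1 := hc'' hN1
  have hnu' : ∀ z, Ox O' y s c' z → NU O' z := by
    rintro z ⟨α, hα, β, hβ, rfl⟩
    refine hloc' _ _ (hpar'.pu.mul_left hα) (NU.mul_left ?_ hβ)
    obtain ⟨c0, rfl⟩ : ∃ c0, c' = c0 + 1 := ⟨c' - 1, by omega⟩
    rw [pow_succ]
    exact hpar'.pv.mul_left (O'.pow_mem hsO' c0)
  have hresnu : ∀ θ ∈ Th O' (uo O' y ∪ uo O' s), NU O' (θ F * X) := fun θ hθ =>
    hnu' _ (hrs1.1 θ hθ)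
  have hw1e : w1 = s * D1 (g 1) + s * D1 (g 0) * s := by
    rw [hw1, Finset.sum_range_succ, Finset.sum_range_one]
    simp
  have hw2e : w2 = D2 (g 1) + D2 (g 0) * s := by
    rw [hw2, Finset.sum_range_succ, Finset.sum_range_one]
    simp
  have hr1f : r1 = -(M' : E) * g 1 + (1 - (M' : E)) * g 0 * s + y * w1 := by
    rw [hr1e, Finset.sum_range_succ, Finset.sum_range_one]
    simp
  have hr2f : r2 = g 1 + y * w2 := by
    rw [hr2e, Finset.sum_range_succ, Finset.sum_range_one]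
    simp
  have hr2nu : NU O' r2 := by
    have := hresnu _ hth2
    rwa [← hr2] at this
  have hg1' : NU O' (g 1) := by
    have h1 := hloc' _ _ hr2nu (hpar'.pu.mul_right hw2O).neg
    rw [hr2f, add_neg_cancel_right] at h1
    exact h1
  have hg1 : NU O (g 1) := by
    by_contra h1
    obtain ⟨h2, h3⟩ := (not_NU_iff (hg 1)).1 h1
    exact not_NU_of_inv h2 (hquad.le h3) hg1'
  obtain ⟨hg0u, hNp⟩ : ¬ NU O (g 0) ∧ ¬ (p : ℤ) ∣ (1 : ℤ) - M' := by
    rcases hcase with h | ⟨j, hj, hju, hjp⟩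
    · omega
    · have : j = 0 ∨ j = 1 := by omega
      rcases this with rfl | rfl
      · refine ⟨hju, fun h => hjp ⟨by simpa using h, by simp⟩⟩
      · exact absurd hg1 hju
  obtain ⟨α, hα, β, hβ, hg1e⟩ := hpar.gen _ hg1
  have hD2g1 : D2 (g 1) = D2 α * x + D2 β * y + β := by
    rw [hg1e, map_add, Derivation.leibniz, Derivation.leibniz, h2x, h2y]
    simp only [smul_eq_mul, mul_zero, mul_one, zero_add]
    ring
  obtain ⟨A, hA⟩ : ∃ A : E, A = (1 - (M' : E)) * g 0 + (y * D1 (g 1) + x * D1 (g 0)) := ⟨_, rfl⟩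
  obtain ⟨B, hB⟩ : ∃ B : E, B = -(M' : E) * β - M' * α * s := ⟨_, rfl⟩
  obtain ⟨C, hC⟩ : ∃ C : E, C = y * D2 (g 0) := ⟨_, rfl⟩
  obtain ⟨D, hDd⟩ : ∃ D : E, D = 2 * β + (α * s + (D2 α * x + D2 β * y)) := ⟨_, rfl⟩
  have hr1AB : r1 = s * A + y * B := by
    rw [hr1f, hA, hB, hw1e, hg1e, hxs]
    ring
  have hr2CD : r2 = s * C + y * D := by
    rw [hr2f, hw2e, hD2g1, hC, hDd, hg1e, hxs]
    ring
  have hMO : ((M' : ℕ) : E) ∈ O' := by
    have := int_mem (O := O') (M' : ℤ)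
    simpa using this
  have hαO' := hquad.le hα
  have hβO' := hquad.le hβ
  have hg0O' := hquad.le (hg 0)
  have hxO' := hquad.le hxO
  have hBO : B ∈ O' := by
    rw [hB]
    exact O'.sub_mem (O'.mul_mem (O'.neg_mem hMO) hβO') (O'.mul_mem (O'.mul_mem hMO hαO') hsO')
  have hCnu : NU O' C := by
    rw [hC]
    exact hpar'.pu.mul_right (hquad.le (hD2 _ (hg 0)))
  have hxnu : NU O' x := hquad.nu _ hpar.pu
  have hAnu : ¬ NU O' A := by
    intro h
    have h1 : NU O' (y * D1 (g 1) + x * D1 (g 0)) :=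
      hloc' _ _ (hpar'.pu.mul_right (hquad.le (hD1 _ (hg 1))))
        (hxnu.mul_right (hquad.le (hD1 _ (hg 0))))
    have h2 := hloc' _ _ h h1.neg
    rw [hA, add_neg_cancel_right] at h2
    have h3 : (1 - (M' : E)) = (((1 : ℤ) - M' : ℤ) : E) := by push_cast; ring
    rw [h3] at h2
    refine not_NU_mul (int_mem _) hg0O' (unit_int hNp) ?_ h2
    obtain ⟨h4, h5⟩ := (not_NU_iff (hg 0)).1 hg0u
    exact not_NU_of_inv h4 (hquad.le h5)
  have hAO : A ∈ O' := by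
    by_contra h
    apply h
    rw [hA]
    have h3 : (1 - (M' : E)) = (((1 : ℤ) - M' : ℤ) : E) := by push_cast; ring
    rw [h3]
    exact O'.add_mem (O'.mul_mem (int_mem _) hg0O') (O'.add_mem
      (O'.mul_mem hyO' (hquad.le (hD1 _ (hg 1)))) (O'.mul_mem hxO' (hquad.le (hD1 _ (hg 0)))))
  -- not both residuals are in the ideal generated by `s` and `y ^ 2`
  have hnot : ¬ (Ox O' s y 2 r1 ∧ Ox O' s y 2 r2) := by
    rintro ⟨h1, h2⟩
    have := key 2 h1 h2
    omega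
  have hDs : (α * s + (D2 α * x + D2 β * y)) = s * (α + D2 α * y) + y * D2 β := by
    rw [hxs]; ring
  have hr2' : r2 - 2 * β * y = (C + y * (α + D2 α * y)) * s + D2 β * y ^ 2 := by
    rw [hr2CD, hDd, hDs]; ring
  have hr1' : r1 + M' * β * y = (A - y * (M' * α)) * s := by
    rw [hr1AB, hB]; ring
  have hc1O : C + y * (α + D2 α * y) ∈ O' :=
    O'.add_mem hCnu.1 (O'.mul_mem hyO' (O'.add_mem hαO'
      (O'.mul_mem (hquad.le (hD2 _ hα)) hyO')))
  have hc2O : A - y * (M' * α) ∈ O' := O'.sub_mem hAO (O'.mul_mem hyO' (O'.mul_mem hMO hαO'))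
  have hp2 : p ≠ 2 := by
    intro hp
    subst hp
    apply hnot
    have h2E : (2 : E) = 0 := by
      have := CharP.cast_eq_zero E 2
      simpa using this
    have hM : (M' : E) = 0 := by
      have h3 : (2 : ℤ) ∣ M' := by
        have h4 : ¬ (2 : ℤ) ∣ (1 : ℤ) - M' := by simpa using hNp
        omega
      have h4 : ((M' : ℤ) : E) = 0 := (CharP.intCast_eq_zero_iff E 2 (M' : ℤ)).2 (by simpa using h3)
      simpa using h4
    constructor
    · refine ⟨_, hc2O, 0, O'.zero_mem, ?_⟩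
      rw [← hr1', hM]
      ring
    · refine ⟨_, hc1O, _, hquad.le (hD2 _ hβ), ?_⟩
      rw [← hr2', h2E]
      ring
  have hβu : ¬ NU O β := by
    intro h1
    obtain ⟨β1, hβ1, β2, hβ2, h2⟩ := hpar.gen β h1
    apply hnot
    constructor
    · refine ⟨A - y * (M' * α) - M' * (β1 * y) * y, O'.sub_mem hc2O (O'.mul_mem (O'.mul_mem hMO
        (O'.mul_mem (hquad.le hβ1) hyO')) hyO'), -(M' * β2), O'.neg_mem (O'.mul_mem hMO
        (hquad.le hβ2)), ?_⟩
      have h3 : r1 = (A - y * (M' * α)) * s - M' * β * y := by rw [← hr1']; ring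
      rw [h3]
      conv_lhs => rw [h2, hxs]
      ring
    · have h20 : (2 : E) ∈ O' := by
        have := int_mem (O := O') (2 : ℤ)
        simpa using this
      refine ⟨C + y * (α + D2 α * y) + 2 * (β1 * y) * y, O'.add_mem hc1O (O'.mul_mem
        (O'.mul_mem h20 (O'.mul_mem (hquad.le hβ1) hyO')) hyO'), D2 β + 2 * β2,
        O'.add_mem (hquad.le (hD2 _ hβ)) (O'.mul_mem h20 (hquad.le hβ2)), ?_⟩
      have h3 : r2 = (C + y * (α + D2 α * y)) * s + D2 β * y ^ 2 + 2 * β * y := by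
        rw [← hr2']; ring
      rw [h3]
      have h4 : 2 * β * y = 2 * (β1 * y) * y * s + 2 * β2 * y ^ 2 := by
        conv_lhs => rw [h2, hxs]
        ring
      rw [h4]
      ring
  have hDO : D ∈ O' := by
    have h20 : (2 : E) ∈ O' := by
      have := int_mem (O := O') (2 : ℤ)
      simpa using this
    rw [hDd]
    exact O'.add_mem (O'.mul_mem h20 hβO') (O'.add_mem (O'.mul_mem hαO' hsO') (O'.add_mem
      (O'.mul_mem (hquad.le (hD2 _ hα)) hxO') (O'.mul_mem (hquad.le (hD2 _ hβ)) hyO')))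
  have hDnu : ¬ NU O' D := by
    intro h
    have h1 : NU O' (α * s + (D2 α * x + D2 β * y)) :=
      hloc' _ _ (hpar'.pv.mul_left hαO') (hloc' _ _ (hxnu.mul_left (hquad.le (hD2 _ hα)))
        (hpar'.pu.mul_left (hquad.le (hD2 _ hβ))))
    have h2 := hloc' _ _ h h1.neg
    rw [hDd, add_neg_cancel_right] at h2
    have h3 : (2 : E) = ((2 : ℤ) : E) := by push_cast; ring
    rw [h3] at h2
    refine not_NU_mul (int_mem _) hβO' (unit_int (p := p) (k := k) ?_) ?_ h2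
    · intro h4
      have h5 : p ∣ 2 := by exact_mod_cast h4
      exact hp2 ((Nat.prime_dvd_prime_iff_eq Fact.out Nat.prime_two).1 h5)
    · obtain ⟨h4, h5⟩ := (not_NU_iff hβ).1 hβu
      exact not_NU_of_inv h4 (hquad.le h5)
  have hdet : ¬ NU O' (A * D - B * C) := by
    intro h
    have h2 := hloc' _ _ h (hCnu.mul_left hBO)
    rw [sub_add_cancel] at h2
    exact not_NU_mul hAO hDO hAnu hDnu h2
  obtain ⟨hdet0, hdeti⟩ := (not_NU_iff (O'.sub_mem (O'.mul_mem hAO hDO)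
    (O'.mul_mem hBO hCnu.1))).1 hdet
  refine ⟨a', ?_, ?_, ?_⟩
  · rw [← hF, ← hX, hFX]
    exact hRO
  · rw [← hF, ← hX]
    exact hresnu
  · rw [← hF, ← hX]
    intro z hz
    obtain ⟨z1, hz1, z2, hz2, hze⟩ := hpar'.gen z hz
    -- `z = z1 * y + z2 * s`
    refine ⟨((z2 * D - z1 * C) * (A * D - B * C)⁻¹) • (x • D1) +
      ((z1 * A - z2 * B) * (A * D - B * C)⁻¹) • (y • D2), (ht2 _).2 ⟨_, O'.mul_mem (O'.sub_mem
        (O'.mul_mem hz2 hDO) (O'.mul_mem hz1 hCnu.1)) hdeti, _, O'.mul_mem (O'.sub_mem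
        (O'.mul_mem hz1 hAO) (O'.mul_mem hz2 hBO)) hdeti, rfl⟩, ?_⟩
    rw [ev, hze, hr1AB, hr2CD]
    have he : (A * D - B * C)⁻¹ * (A * D - B * C) = 1 := inv_mul_cancel₀ hdet0
    linear_combination (z2 * s + z1 * y) * he

end Pool.Agent.W368.WA
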